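import Pool.Agent.Helper52.Moeller.Density

/-!
The multiscale argument: all but `C B x (log x)^4 z^(η - 1)` of the positive integers `n ≤ x` have
a `T`-orbit which goes down to `z`.
-/

set_option autoImplicit false

namespace Pool.Agent.Helper52.Moeller

open Pool.Agent.Helper68.Moeller

variable {d m : ℕ} {r : ℤ → ℤ}

/-- Splitting according to the first scale which is not passed quickly. -/
theorem exists_stage (x z : ℝ) (J : ℕ) (Y : ℕ → ℝ) (K : ℕ → ℕ) (hY0 : x ≤ Y 0) (hYJ : Y J ≤ z)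
    (n : ℤ) (hnx : (n : ℝ) ≤ x) (hn : ∀ k, z < ((T d m r)^[k] n : ℝ)) :
    ∃ j < J, ∃ t ≤ ∑ i ∈ Finset.range J, K i, ((T d m r)^[t] n : ℝ) ≤ Y j ∧
      (∀ i < t, Y j < ((T d m r)^[i] n : ℝ)) ∧
      ∀ i ≤ K j, Y (j + 1) < ((T d m r)^[i] ((T d m r)^[t] n) : ℝ) := by
  classical
  set M : ℕ → ℕ := fun j => ∑ i ∈ Finset.range j, K i with hM
  have hmono : ∀ j, j ≤ J → M j ≤ M J := fun j hj =>
    Finset.sum_le_sum_of_subset (Finset.range_mono hj)
  by_contra hcon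
  push Not at hcon
  have hP : ∀ j ≤ J, ∃ t ≤ M j, ((T d m r)^[t] n : ℝ) ≤ Y j := by
    intro j
    induction j with
    | zero => intro _; exact ⟨0, Nat.zero_le _, by simpa using hnx.trans hY0⟩
    | succ j ih =>
      intro hj
      obtain ⟨t', ht', hty'⟩ := ih (by omega)
      have hex : ∃ t, ((T d m r)^[t] n : ℝ) ≤ Y j := ⟨t', hty'⟩
      set t := Nat.find hex with ht
      have h1 : ((T d m r)^[t] n : ℝ) ≤ Y j := Nat.find_spec hex
      have h2 : t ≤ M j := (Nat.find_min' hex hty').trans ht'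
      have h3 : ∀ i < t, Y j < ((T d m r)^[i] n : ℝ) := fun i hi =>
        not_le.1 (Nat.find_min hex hi)
      obtain ⟨i, hi, hi2⟩ := hcon j (by omega) t (h2.trans (hmono j (by omega))) h1 h3
      refine ⟨i + t, ?_, ?_⟩
      · simp only [hM, Finset.sum_range_succ]
        have : t ≤ ∑ i ∈ Finset.range j, K i := h2
        omega
      · rw [Function.iterate_add_apply]; exact hi2
  obtain ⟨t, _, ht⟩ := hP J le_rfl
  exact absurd (hn t) (not_lt.2 (ht.trans hYJ))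

section

variable {B N : ℕ}

/-- One step of `T` does not go down too much. -/
theorem step_lower (hr : Admissible d m r) (hd : 2 ≤ d) (hm : 1 ≤ m)
    (hB : ∀ j : ℤ, 0 < j → j < (d : ℤ) → |r j| ≤ B) {Y : ℝ} (hY : 2 * (B : ℝ) ≤ Y) (a : ℤ)
    (ha : Y < (a : ℝ)) : Y / (2 * d) ≤ (T d m r a : ℝ) := by
  have hd0 : (0 : ℝ) < d := by positivity
  have hB0 : (0 : ℝ) ≤ B := by positivity
  have ha0 : (0 : ℝ) < a := by linarith
  have hm1 : (1 : ℝ) ≤ m := by exact_mod_cast hm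
  have hstep := step hr hd a
  have h1 : Y / 2 ≤ (d : ℝ) * (T d m r a : ℝ) := by
    split_ifs at hstep with hda
    · have hs : (d : ℝ) * (T d m r a : ℝ) = a := by exact_mod_cast hstep
      rw [hs]; linarith
    · have hs : (d : ℝ) * (T d m r a : ℝ) = m * a - (r (a % d) : ℝ) := by exact_mod_cast hstep
      obtain ⟨e1, e2⟩ := emod_pos hd hda
      have h6 : |(r (a % d) : ℝ)| ≤ B := by exact_mod_cast hB _ e1 e2
      rw [abs_le] at h6
      rw [hs]
      nlinarith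
  rw [div_le_iff₀ (by positivity)]
  linarith

/-- Counting one stage. -/
theorem card_stage (hr : Admissible d m r) (hd : 2 ≤ d) (hm : 1 ≤ m) (hco : Nat.Coprime m d)
    (hB : ∀ j : ℤ, 0 < j → j < (d : ℤ) → |r j| ≤ B) (hB1 : 1 ≤ B) (hN : 1 ≤ N) {Y Y' : ℝ}
    (hY : 2 * (B : ℝ) * N ≤ Y) {x : ℝ} (hYx : Y ≤ x) (K : ℕ) (S F : Finset ℤ)
    (hF : ∀ y : ℤ, 0 < y → (y : ℝ) ≤ Y → (∀ i ≤ K, Y' < ((T d m r)^[i] y : ℝ)) → y ∈ F)
    (hF' : ∀ y ∈ F, 0 < y ∧ (y : ℝ) ≤ Y)
    (hS : ∀ n ∈ S, 0 < n ∧ (n : ℝ) ≤ x ∧ ∃ t ≤ N, 0 < (T d m r)^[t] n ∧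
      ((T d m r)^[t] n : ℝ) ≤ Y ∧ (∀ i < t, Y < ((T d m r)^[i] n : ℝ)) ∧
      ∀ i ≤ K, Y' < ((T d m r)^[i] ((T d m r)^[t] n) : ℝ)) :
    (S.card : ℝ) ≤ F.card * (17 * B * N * ((N : ℝ) + 1) ^ 2 * d ^ 2 * (x / Y)) := by
  classical
  have hB1' : (1 : ℝ) ≤ B := by exact_mod_cast hB1
  have hN1' : (1 : ℝ) ≤ N := by exact_mod_cast hN
  have hd1 : (1 : ℝ) ≤ d := by exact_mod_cast (by omega : 1 ≤ d)
  have hd0 : (0 : ℝ) < d := by linarith
  have hY0 : 0 < Y := lt_of_lt_of_le (by positivity) hY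
  have hx0 : 0 < x := hY0.trans_le hYx
  have hBY : 2 * (B : ℝ) ≤ Y := by nlinarith
  choose! t ht1 ht2 ht3 ht4 ht5 using fun n (hn : n ∈ S) => (hS n hn).2.2
  set g : ℤ → ℤ := fun n => (T d m r)^[t n] n with hg
  have hgF : ∀ n ∈ S, g n ∈ F := fun n hn => hF _ (ht2 n hn) (ht3 n hn) (ht5 n hn)
  -- the points with `t = 0`
  have h0 : ((S.filter (fun n => t n = 0)).card : ℝ) ≤ F.card := by
    have : S.filter (fun n => t n = 0) ⊆ F := by
      intro n hn
      rw [Finset.mem_filter] at hn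
      have h1 := hgF n hn.1
      simp only [hg, hn.2, Function.iterate_zero, id_eq] at h1
      exact h1
    exact_mod_cast Finset.card_le_card this
  -- the other points
  have h1 : ((S.filter (fun n => ¬ t n = 0)).card : ℝ) ≤
      F.card * (16 * B * N * ((N : ℝ) + 1) ^ 2 * d ^ 2 * (x / Y)) := by
    have hmaps : ∀ n ∈ S.filter (fun n => ¬ t n = 0), g n ∈ F := fun n hn =>
      hgF n (Finset.mem_filter.1 hn).1
    rw [Finset.card_eq_sum_card_fiberwise hmaps]
    push_cast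
    have h2 : ∀ y ∈ F, (((S.filter (fun n => ¬ t n = 0)).filter (fun n => g n = y)).card : ℝ) ≤
        16 * B * N * ((N : ℝ) + 1) ^ 2 * d ^ 2 * (x / Y) := by
      intro y hy
      obtain ⟨hy0, hyY⟩ := hF' y hy
      have hy0' : (0 : ℝ) < y := by exact_mod_cast hy0
      set A := (S.filter (fun n => ¬ t n = 0)).filter (fun n => g n = y) with hA
      rcases A.eq_empty_or_nonempty with he | ⟨n₀, hn₀⟩
      · rw [he]; simp only [Finset.card_empty, Nat.cast_zero]; positivity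
      have hAmem : ∀ n ∈ A, n ∈ S ∧ t n ≠ 0 ∧ g n = y := by
        intro n hn
        rw [hA, Finset.mem_filter, Finset.mem_filter] at hn
        exact ⟨hn.1.1, hn.1.2, hn.2⟩
      have hcard := card_passage hr hd hm hco hB hB1 hN hY hy0 hyY hx0.le A (by
        intro n hn
        obtain ⟨a1, a2, a3⟩ := hAmem n hn
        exact ⟨(hS n a1).1, (hS n a1).2.1, t n, ht1 n a1, a3, ht4 n a1⟩)
      -- lower bound for `y`
      have hylow : Y / (2 * d) ≤ (y : ℝ) := by
        obtain ⟨a1, a2, a3⟩ := hAmem n₀ hn₀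
        obtain ⟨k, hk⟩ := Nat.exists_eq_succ_of_ne_zero a2
        have h3 := ht4 n₀ a1 k (by omega)
        have h4 := step_lower hr hd hm hB hBY _ h3
        rw [← Function.iterate_succ_apply' (T d m r) k n₀, ← hk] at h4
        rw [← a3]
        exact h4
      have h5 : (A.card : ℝ) * (Y / (2 * d)) ≤ 8 * B * N * ((N : ℝ) + 1) ^ 2 * d * x :=
        (mul_le_mul_of_nonneg_left hylow (by positivity)).trans hcard
      have h6 : (A.card : ℝ) * (Y / (2 * d)) ≤
          (16 * B * N * ((N : ℝ) + 1) ^ 2 * d ^ 2 * (x / Y)) * (Y / (2 * d)) := by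
        refine h5.trans (le_of_eq ?_)
        field_simp
        ring
      exact le_of_mul_le_mul_right h6 (by positivity)
    refine (Finset.sum_le_card_nsmul _ _ _ h2).trans (le_of_eq ?_)
    rw [nsmul_eq_mul]
  have h2 : (S.card : ℝ) = ((S.filter (fun n => t n = 0)).card : ℝ) +
      ((S.filter (fun n => ¬ t n = 0)).card : ℝ) := by
    rw [← Finset.card_filter_add_card_filter_not (s := S) (fun n => t n = 0)]
    push_cast; rfl
  have h3 : (1 : ℝ) ≤ B * N * ((N : ℝ) + 1) ^ 2 * d ^ 2 * (x / Y) := by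
    have e1 : 1 ≤ x / Y := by rwa [one_le_div hY0]
    have e2 : (1 : ℝ) ≤ B * N := by nlinarith
    have e3 : (1 : ℝ) ≤ ((N : ℝ) + 1) ^ 2 := by nlinarith
    have e4 : (1 : ℝ) ≤ (d : ℝ) ^ 2 := by nlinarith
    have e5 : (1 : ℝ) ≤ B * N * ((N : ℝ) + 1) ^ 2 := by nlinarith
    have e6 : (1 : ℝ) ≤ B * N * ((N : ℝ) + 1) ^ 2 * d ^ 2 := by nlinarith
    nlinarith
  have h4 : (F.card : ℝ) ≤ F.card * (B * N * ((N : ℝ) + 1) ^ 2 * d ^ 2 * (x / Y)) := by
    have : (0 : ℝ) ≤ F.card := by positivity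
    nlinarith
  rw [h2]
  calc ((S.filter (fun n => t n = 0)).card : ℝ) + ((S.filter (fun n => ¬ t n = 0)).card : ℝ)
      ≤ F.card * (B * N * ((N : ℝ) + 1) ^ 2 * d ^ 2 * (x / Y)) +
        F.card * (16 * B * N * ((N : ℝ) + 1) ^ 2 * d ^ 2 * (x / Y)) := by linarith
    _ = _ := by ring

end

/-- The scales. -/
theorem exists_scales (hd : 2 ≤ d) {γ : ℝ} (hγ0 : 0 < γ) (hγ1 : γ < 1) :
    ∃ c : ℝ, 0 < c ∧ ∀ x z : ℝ, 2 ≤ z → z < x → ∃ (J : ℕ) (Y : ℕ → ℝ) (K : ℕ → ℕ),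
      Y 0 = x ∧ Y J = z ∧ (∀ j ≤ J, z ≤ Y j ∧ Y j ≤ x) ∧
      (∀ j < J, 1 ≤ K j ∧ Y j ≤ (d : ℝ) ^ K j ∧ (d : ℝ) ^ K j ≤ d * Y j ∧
        Y j ^ γ ≤ Y (j + 1)) ∧
      (J : ℝ) ≤ c * Real.log x ∧
      ((∑ j ∈ Finset.range J, K j : ℕ) : ℝ) ≤ c * Real.log x := by
  have hl2 : 0 < Real.log 2 := Real.log_pos (by norm_num)
  have hd' : (2 : ℝ) ≤ d := by exact_mod_cast hd
  have hlogd : Real.log 2 ≤ Real.log d := Real.log_le_log (by norm_num) hd'
  have h1γ : 0 < 1 - γ := by linarith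
  refine ⟨2 / ((1 - γ) * Real.log 2), by positivity, fun x z hz hzx => ?_⟩
  have hz0 : 0 < z := by linarith
  have hx0 : 0 < x := by linarith
  have hx1 : 1 < x := by linarith
  have hlx : 0 < Real.log x := Real.log_pos hx1
  have hlz : 0 < Real.log z := Real.log_pos (by linarith)
  classical
  have hex : ∃ j : ℕ, x ^ (γ ^ j) ≤ z := by
    obtain ⟨j, hj⟩ := exists_pow_lt_of_lt_one (show 0 < Real.log z / Real.log x by positivity) hγ1
    refine ⟨j, ?_⟩
    rw [← Real.log_le_log_iff (by positivity) hz0, Real.log_rpow hx0]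
    rw [lt_div_iff₀ hlx] at hj
    exact hj.le
  set J := Nat.find hex with hJ
  have hJ1 : x ^ (γ ^ J) ≤ z := Nat.find_spec hex
  have hJ2 : ∀ j < J, z < x ^ (γ ^ j) := fun j hj => not_le.1 (Nat.find_min hex hj)
  set Y : ℕ → ℝ := fun j => if j < J then x ^ (γ ^ j) else z with hY
  set K : ℕ → ℕ := fun j => ⌊Real.log (Y j) / Real.log d⌋₊ + 1 with hK
  have hJ0 : 0 < J := by
    rw [Nat.pos_iff_ne_zero]
    intro h0
    rw [h0, pow_zero, Real.rpow_one] at hJ1
    linarith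
  have hYz : ∀ j, z ≤ Y j := by
    intro j
    simp only [hY]
    split_ifs with h
    · exact (hJ2 j h).le
    · exact le_rfl
  have hYx : ∀ j, Y j ≤ x := by
    intro j
    simp only [hY]
    split_ifs with h
    · calc x ^ (γ ^ j) ≤ x ^ (1 : ℝ) :=
          Real.rpow_le_rpow_of_exponent_le hx1.le (pow_le_one₀ hγ0.le hγ1.le)
        _ = x := Real.rpow_one x
    · exact hzx.le
  have hlogYj : ∀ j < J, Real.log (Y j) = γ ^ j * Real.log x := by
    intro j hj
    simp only [hY, if_pos hj]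
    rw [Real.log_rpow hx0]
  have hgeom : ∑ j ∈ Finset.range J, γ ^ j * Real.log x ≤ Real.log x / (1 - γ) := by
    rw [← Finset.sum_mul, div_eq_inv_mul]
    refine mul_le_mul_of_nonneg_right ?_ hlx.le
    exact (summable_geometric_of_lt_one hγ0.le hγ1).sum_le_tsum _ (fun i _ => by positivity)
      |>.trans (le_of_eq (tsum_geometric_of_lt_one hγ0.le hγ1))
  have hJlog : (J : ℝ) ≤ (1 / ((1 - γ) * Real.log 2)) * Real.log x := by
    have h1 : (J : ℝ) * Real.log 2 ≤ Real.log x / (1 - γ) := by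
      refine le_trans ?_ hgeom
      have h2 : ∀ j ∈ Finset.range J, Real.log 2 ≤ γ ^ j * Real.log x := by
        intro j hj
        rw [← hlogYj j (Finset.mem_range.1 hj)]
        exact Real.log_le_log (by norm_num) (hz.trans (hYz j))
      have h3 := Finset.card_nsmul_le_sum (Finset.range J) _ _ h2
      rwa [Finset.card_range, nsmul_eq_mul] at h3
    rw [div_mul_eq_mul_div, one_mul, le_div_iff₀ (by positivity)]
    calc (J : ℝ) * ((1 - γ) * Real.log 2) = (1 - γ) * (J * Real.log 2) := by ring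
      _ ≤ (1 - γ) * (Real.log x / (1 - γ)) := mul_le_mul_of_nonneg_left h1 h1γ.le
      _ = Real.log x := by field_simp
  refine ⟨J, Y, K, ?_, ?_, fun j _ => ⟨hYz j, hYx j⟩, ?_, ?_, ?_⟩
  · simp only [hY, if_pos hJ0, pow_zero, Real.rpow_one]
  · simp only [hY, lt_irrefl, if_false]
  · intro j hj
    have hYj0 : 0 < Y j := hz0.trans_le (hYz j)
    have hYj1 : 1 ≤ Y j := by linarith [hYz j]
    have hlY : 0 ≤ Real.log (Y j) := Real.log_nonneg hYj1
    have hld : 0 < Real.log d := hl2.trans_le hlogd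
    refine ⟨by simp [hK], ?_, ?_, ?_⟩
    · rw [← Real.log_le_log_iff hYj0 (by positivity), Real.log_pow]
      have h1 := (Nat.lt_floor_add_one (Real.log (Y j) / Real.log d)).le
      rw [div_le_iff₀ hld] at h1
      simp only [hK]
      push_cast
      linarith
    · rw [← Real.log_le_log_iff (by positivity) (by positivity), Real.log_pow,
        Real.log_mul (by positivity) hYj0.ne']
      have h1 := Nat.floor_le (show 0 ≤ Real.log (Y j) / Real.log d by positivity)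
      rw [le_div_iff₀ hld] at h1
      simp only [hK]
      push_cast
      linarith
    · by_cases hj1 : j + 1 < J
      · simp only [hY, if_pos hj, if_pos hj1]
        rw [← Real.rpow_mul hx0.le, pow_succ]
      · have hjJ : j + 1 = J := by omega
        simp only [hY, if_pos hj, if_neg hj1]
        rw [← Real.rpow_mul hx0.le, ← pow_succ, hjJ]
        exact hJ1
  · refine hJlog.trans ?_
    refine mul_le_mul_of_nonneg_right ?_ hlx.le
    rw [div_le_div_iff_of_pos_right (by positivity)]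
    norm_num
  · push_cast
    have h1 : ∀ j ∈ Finset.range J, ((K j : ℕ) : ℝ) ≤ γ ^ j * Real.log x / Real.log 2 + 1 := by
      intro j hj
      have hYj1 : 1 ≤ Y j := by linarith [hYz j]
      have hlY : 0 ≤ Real.log (Y j) := Real.log_nonneg hYj1
      have hld : 0 < Real.log d := hl2.trans_le hlogd
      have h2 := Nat.floor_le (show 0 ≤ Real.log (Y j) / Real.log d by positivity)
      have h3 : Real.log (Y j) / Real.log d ≤ Real.log (Y j) / Real.log 2 :=
        div_le_div_of_nonneg_left hlY hl2 hlogd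
      rw [hlogYj j (Finset.mem_range.1 hj)] at h2 h3
      simp only [hK]
      push_cast
      rw [hlogYj j (Finset.mem_range.1 hj)]
      linarith
    refine (Finset.sum_le_sum h1).trans ?_
    rw [Finset.sum_add_distrib, Finset.sum_const, Finset.card_range, nsmul_eq_mul, mul_one,
      ← Finset.sum_div]
    have h4 : (∑ j ∈ Finset.range J, γ ^ j * Real.log x) / Real.log 2 ≤
        Real.log x / (1 - γ) / Real.log 2 := div_le_div_of_nonneg_right hgeom hl2.le
    have h5 : Real.log x / (1 - γ) / Real.log 2 = (1 / ((1 - γ) * Real.log 2)) * Real.log x := by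
      field_simp
    rw [h5] at h4
    calc _ ≤ (1 / ((1 - γ) * Real.log 2)) * Real.log x +
          (1 / ((1 - γ) * Real.log 2)) * Real.log x := add_le_add h4 hJlog
      _ = _ := by ring

/-- **The main estimate** for the `T`-orbits. -/
theorem main_T (hd : 2 ≤ d) (hdm : d < m) (hco : Nat.Coprime m d)
    (hm : (m : ℝ) ≤ (d : ℝ) ^ ((d : ℝ) / ((d : ℝ) - 1))) {η : ℝ} (hη : eta d m < η)
    (hη1 : η < 1) :
    ∃ C : ℝ, 0 < C ∧ ∀ r : ℤ → ℤ, Admissible d m r → ∀ B : ℕ, 1 ≤ B →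
      (∀ j : ℤ, 0 < j → j < (d : ℤ) → |r j| ≤ B) → ∀ x z : ℝ, 2 ≤ x → 1 ≤ z → ∀ S : Finset ℤ,
        (∀ n ∈ S, 0 < n ∧ (n : ℝ) ≤ x ∧ ∀ k, z < ((T d m r)^[k] n : ℝ)) →
          (S.card : ℝ) ≤ C * B * Real.log x ^ 4 * x * z ^ (η - 1) := by
  classical
  obtain ⟨γ, C₀, hγ0, hγ1, hC₀, hstay⟩ := card_stay hd hdm hco hm hη
  obtain ⟨c, hc0, hscales⟩ := exists_scales hd hγ0 hγ1
  have hl2 : 0 < Real.log 2 := Real.log_pos (by norm_num)
  have hm1 : 1 ≤ m := by omega
  have hd1 : (1 : ℝ) ≤ d := by exact_mod_cast (by omega : 1 ≤ d)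
  set c₁ := c + 1 / Real.log 2 with hc₁
  have hc₁0 : 0 < c₁ := by positivity
  refine ⟨68 * C₀ * d ^ 2 * c₁ ^ 4 + 2 * c₁ / Real.log 2 ^ 3, by positivity, ?_⟩
  intro r hr B hB1 hB x z hx hz S hS
  have hB1' : (1 : ℝ) ≤ B := by exact_mod_cast hB1
  have hx0 : 0 < x := by linarith
  have hz0 : 0 < z := by linarith
  have hlx2 : Real.log 2 ≤ Real.log x := Real.log_le_log (by norm_num) hx
  have hlx : 0 < Real.log x := hl2.trans_le hlx2
  set N := ⌈c * Real.log x⌉₊ with hN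
  have hN1 : 1 ≤ N := Nat.one_le_iff_ne_zero.2 (by
    rw [hN]; exact (Nat.ceil_pos.2 (by positivity)).ne')
  have hN1' : (1 : ℝ) ≤ N := by exact_mod_cast hN1
  have hNc : (N : ℝ) ≤ c₁ * Real.log x := by
    have h1 := (Nat.ceil_lt_add_one (show 0 ≤ c * Real.log x by positivity)).le
    have h2 : 1 ≤ 1 / Real.log 2 * Real.log x := by
      rw [div_mul_eq_mul_div, one_mul, one_le_div hl2]; exact hlx2
    rw [hc₁, add_mul]
    linarith
  have hcN : c * Real.log x ≤ N := Nat.le_ceil _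
  rcases lt_or_ge z (2 * B * N) with hz2 | hz2
  · -- trivial range
    have hcard : (S.card : ℝ) ≤ x := by
      have h1 : S ⊆ Finset.Icc 1 ⌊x⌋ := by
        intro n hn
        obtain ⟨a1, a2, _⟩ := hS n hn
        rw [Finset.mem_Icc]
        exact ⟨a1, Int.le_floor.2 a2⟩
      have h2 := Finset.card_le_card h1
      rw [Int.card_Icc] at h2
      have h3 : ((⌊x⌋ + 1 - 1).toNat : ℤ) = ⌊x⌋ := by
        rw [add_sub_cancel_right]
        exact Int.toNat_of_nonneg (Int.floor_nonneg.2 hx0.le)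
      calc (S.card : ℝ) ≤ ((⌊x⌋ + 1 - 1).toNat : ℝ) := by exact_mod_cast h2
        _ = ((((⌊x⌋ + 1 - 1).toNat : ℤ)) : ℝ) := by push_cast; rfl
        _ = (⌊x⌋ : ℝ) := by rw [h3]
        _ ≤ x := Int.floor_le x
    have h1 : (2 * (B : ℝ) * N)⁻¹ ≤ z ^ (η - 1) := by
      calc (2 * (B : ℝ) * N)⁻¹ ≤ z⁻¹ := inv_anti₀ hz0 hz2.le
        _ = z ^ (-1 : ℝ) := (Real.rpow_neg_one z).symm
        _ ≤ z ^ (η - 1) := Real.rpow_le_rpow_of_exponent_le hz (by
            have := eta_pos hd hdm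
            linarith)
    have h2 : x ≤ (2 * c₁ / Real.log 2 ^ 3) * B * Real.log x ^ 4 * x * (2 * (B : ℝ) * N)⁻¹ := by
      have h3 : (2 * c₁ / Real.log 2 ^ 3) * B * Real.log x ^ 4 * x * (2 * (B : ℝ) * N)⁻¹ =
          (c₁ * Real.log x / N) * (Real.log x ^ 3 / Real.log 2 ^ 3) * x := by
        field_simp
      rw [h3]
      have h4 : 1 ≤ c₁ * Real.log x / N := by
        rw [one_le_div (by positivity)]; exact hNc
      have h5 : 1 ≤ Real.log x ^ 3 / Real.log 2 ^ 3 := by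
        rw [one_le_div (by positivity)]
        exact pow_le_pow_left₀ hl2.le hlx2 3
      have h6 : 1 ≤ (c₁ * Real.log x / N) * (Real.log x ^ 3 / Real.log 2 ^ 3) := by
        nlinarith
      nlinarith
    calc (S.card : ℝ) ≤ x := hcard
      _ ≤ (2 * c₁ / Real.log 2 ^ 3) * B * Real.log x ^ 4 * x * (2 * (B : ℝ) * N)⁻¹ := h2
      _ ≤ (2 * c₁ / Real.log 2 ^ 3) * B * Real.log x ^ 4 * x * z ^ (η - 1) := by gcongr
      _ ≤ (68 * C₀ * d ^ 2 * c₁ ^ 4 + 2 * c₁ / Real.log 2 ^ 3) * B * Real.log x ^ 4 * x *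
          z ^ (η - 1) := by
          gcongr
          have : 0 ≤ 68 * C₀ * d ^ 2 * c₁ ^ 4 := by positivity
          linarith
  rcases le_or_gt x z with hxz | hxz
  · -- nothing to count
    have : S = ∅ := by
      rw [Finset.eq_empty_iff_forall_notMem]
      intro n hn
      obtain ⟨_, a2, a3⟩ := hS n hn
      have := a3 0
      simp only [Function.iterate_zero, id_eq] at this
      linarith
    rw [this]
    simp only [Finset.card_empty, Nat.cast_zero]
    positivity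
  have h2z : 2 ≤ z := by nlinarith
  obtain ⟨J, Y, K, hY0, hYJ, hYb, hK, hJN, hKN⟩ := hscales x z h2z hxz
  have hKN' : ∑ j ∈ Finset.range J, K j ≤ N := by
    have : ((∑ j ∈ Finset.range J, K j : ℕ) : ℝ) ≤ N := hKN.trans hcN
    exact_mod_cast this
  have hJN' : (J : ℝ) ≤ N := hJN.trans hcN
  have hKj : ∀ j < J, K j ≤ N := fun j hj =>
    (Finset.single_le_sum (fun _ _ => Nat.zero_le _) (Finset.mem_range.2 hj)).trans hKN'
  -- the stages
  set F : ℕ → Finset ℤ := fun j => (Finset.Icc 1 ⌊Y j⌋).filter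
    (fun y => ∀ i ≤ K j, Y (j + 1) < ((T d m r)^[i] y : ℝ)) with hF
  set P : ℕ → ℤ → Prop := fun j n => ∃ t ≤ N, ((T d m r)^[t] n : ℝ) ≤ Y j ∧
      (∀ i < t, Y j < ((T d m r)^[i] n : ℝ)) ∧
      ∀ i ≤ K j, Y (j + 1) < ((T d m r)^[i] ((T d m r)^[t] n) : ℝ) with hP
  have hcover : S ⊆ (Finset.range J).biUnion (fun j => S.filter (P j)) := by
    intro n hn
    obtain ⟨a1, a2, a3⟩ := hS n hn
    obtain ⟨j, hj, t, ht, h1, h2, h3⟩ := exists_stage x z J Y K hY0.ge hYJ.le n a2 a3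
    rw [Finset.mem_biUnion]
    exact ⟨j, Finset.mem_range.2 hj, Finset.mem_filter.2 ⟨hn, t, ht.trans hKN', h1, h2, h3⟩⟩
  have hFj : ∀ j < J, ((F j).card : ℝ) ≤ C₀ * Y j ^ η := by
    intro j hj
    obtain ⟨k1, k2, k3, k4⟩ := hK j hj
    have hYj := hYb j hj.le
    have hYj' := hYb (j + 1) hj
    refine hstay r hr B hB1 hB (K j) k1 (Y j) (Y (j + 1)) (by linarith) k2 k3 k4 ?_ (F j) ?_
    · have h1 : ((K j : ℕ) : ℝ) ≤ N := by exact_mod_cast hKj j hj
      have h2 : 2 * (B : ℝ) * (K j : ℕ) ≤ 2 * B * N := by gcongr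
      linarith
    · intro y hy
      rw [hF, Finset.mem_filter, Finset.mem_Icc] at hy
      exact ⟨by linarith [hy.1.1], Int.le_floor.1 hy.1.2, hy.2⟩
  have hSj : ∀ j ∈ Finset.range J, ((S.filter (P j)).card : ℝ) ≤
      68 * C₀ * d ^ 2 * B * (N : ℝ) ^ 3 * x * z ^ (η - 1) := by
    intro j hj
    rw [Finset.mem_range] at hj
    have hYj := hYb j hj.le
    have hYj0 : 0 < Y j := by linarith
    have h1 := card_stage hr hd hm1 hco hB hB1 hN1 (Y := Y j) (Y' := Y (j + 1))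
      (by linarith) (x := x) hYj.2 (K j) (S.filter (P j)) (F j) (by
        intro y hy0 hyY hyT
        rw [hF, Finset.mem_filter, Finset.mem_Icc]
        exact ⟨⟨by omega, Int.le_floor.2 hyY⟩, hyT⟩) (by
        intro y hy
        rw [hF, Finset.mem_filter, Finset.mem_Icc] at hy
        exact ⟨by linarith [hy.1.1], Int.le_floor.1 hy.1.2⟩) (by
        intro n hn
        rw [Finset.mem_filter] at hn
        obtain ⟨hn1, t, ht1, ht2, ht3, ht4⟩ := hn
        obtain ⟨a1, a2, a3⟩ := hS n hn1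
        refine ⟨a1, a2, t, ht1, ?_, ht2, ht3, ht4⟩
        have : (0 : ℝ) < ((T d m r)^[t] n : ℝ) := hz0.trans (a3 t)
        exact_mod_cast this)
    have h2 : ((N : ℝ) + 1) ^ 2 ≤ 4 * (N : ℝ) ^ 2 := by nlinarith
    have h3 : Y j ^ η * (x / Y j) ≤ x * z ^ (η - 1) := by
      have h4 : Y j ^ η * (x / Y j) = x * Y j ^ (η - 1) := by
        rw [Real.rpow_sub_one hYj0.ne']
        field_simp
      rw [h4]
      refine mul_le_mul_of_nonneg_left ?_ hx0.le
      exact Real.rpow_le_rpow_of_nonpos hz0 hYj.1 (by linarith)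
    calc ((S.filter (P j)).card : ℝ)
        ≤ (F j).card * (17 * B * N * ((N : ℝ) + 1) ^ 2 * d ^ 2 * (x / Y j)) := h1
      _ ≤ (C₀ * Y j ^ η) * (17 * B * N * (4 * (N : ℝ) ^ 2) * d ^ 2 * (x / Y j)) := by
          have := hFj j hj
          gcongr
      _ = 68 * C₀ * d ^ 2 * B * (N : ℝ) ^ 3 * (Y j ^ η * (x / Y j)) := by ring
      _ ≤ 68 * C₀ * d ^ 2 * B * (N : ℝ) ^ 3 * (x * z ^ (η - 1)) := by gcongr
      _ = _ := by ring
  have hsum : (S.card : ℝ) ≤ ∑ j ∈ Finset.range J, ((S.filter (P j)).card : ℝ) := by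
    have h1 := (Finset.card_le_card hcover).trans Finset.card_biUnion_le
    exact_mod_cast h1
  have hfin : (S.card : ℝ) ≤ N * (68 * C₀ * d ^ 2 * B * (N : ℝ) ^ 3 * x * z ^ (η - 1)) := by
    refine hsum.trans ((Finset.sum_le_card_nsmul _ _ _ hSj).trans ?_)
    rw [Finset.card_range, nsmul_eq_mul]
    exact mul_le_mul_of_nonneg_right hJN' (by positivity)
  calc (S.card : ℝ) ≤ N * (68 * C₀ * d ^ 2 * B * (N : ℝ) ^ 3 * x * z ^ (η - 1)) := hfin
    _ = 68 * C₀ * d ^ 2 * (N : ℝ) ^ 4 * B * x * z ^ (η - 1) := by ring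
    _ ≤ 68 * C₀ * d ^ 2 * (c₁ * Real.log x) ^ 4 * B * x * z ^ (η - 1) := by gcongr
    _ = (68 * C₀ * d ^ 2 * c₁ ^ 4) * B * Real.log x ^ 4 * x * z ^ (η - 1) := by ring
    _ ≤ (68 * C₀ * d ^ 2 * c₁ ^ 4 + 2 * c₁ / Real.log 2 ^ 3) * B * Real.log x ^ 4 * x *
          z ^ (η - 1) := by
        gcongr
        have : 0 ≤ 2 * c₁ / Real.log 2 ^ 3 := by positivity
        linarith

end Pool.Agent.Helper52.Moeller
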