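import Pool.Agent.Helper52.Moeller.Descent

/-!
From the `H`-orbits to the `T`-orbits.
-/

set_option autoImplicit false

namespace Pool.Agent.Helper52.Moeller

open Pool.Agent.Helper68.Moeller

variable {d m : ℕ} {r : ℤ → ℤ}

/-- If the `H`-orbit of `n` stays above `z ≥ B`, so does the `T`-orbit. -/
theorem H_to_T (hr : Admissible d m r) (hd : 2 ≤ d) (hm : 1 ≤ m) {B : ℕ}
    (hB : ∀ j : ℤ, 0 < j → j < (d : ℤ) → |r j| ≤ B) {z : ℝ} (hzB : (B : ℝ) ≤ z) {n : ℤ}
    (h1 : ¬ (d : ℤ) ∣ n)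
    (h2 : ∀ k : ℕ, (∀ i < k, r ((H d m r)^[i] n % (d : ℤ)) < (m : ℤ) * (H d m r)^[i] n) →
      z < ((H d m r)^[k] n : ℝ)) (k : ℕ) : z < ((T d m r)^[k] n : ℝ) := by
  have hz0 : (0 : ℝ) ≤ z := le_trans (by positivity) hzB
  have hP : ∀ k, (∀ i < k, r ((H d m r)^[i] n % (d : ℤ)) < (m : ℤ) * (H d m r)^[i] n) ∧
      z < ((H d m r)^[k] n : ℝ) ∧ ¬ (d : ℤ) ∣ (H d m r)^[k] n := by
    intro k
    induction k with
    | zero => exact ⟨by simp, h2 0 (by simp), h1⟩
    | succ k ih =>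
      obtain ⟨ih1, ih2, ih3⟩ := ih
      have hdef : r ((H d m r)^[k] n % (d : ℤ)) < (m : ℤ) * (H d m r)^[k] n := by
        obtain ⟨hp1, hp2⟩ := emod_pos hd ih3
        have h3 := (le_abs_self _).trans (hB _ hp1 hp2)
        have h5 : (B : ℤ) < (H d m r)^[k] n := by
          have : (B : ℝ) < ((H d m r)^[k] n : ℝ) := lt_of_le_of_lt hzB ih2
          exact_mod_cast this
        have h4 : (H d m r)^[k] n ≤ (m : ℤ) * (H d m r)^[k] n := by
          have : (1 : ℤ) ≤ m := by exact_mod_cast hm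
          have hB0 : (0 : ℤ) ≤ B := by positivity
          nlinarith
        linarith
      have hdef' : ∀ i < k + 1, r ((H d m r)^[i] n % (d : ℤ)) < (m : ℤ) * (H d m r)^[i] n := by
        intro i hi
        rcases Nat.lt_succ_iff_lt_or_eq.mp hi with h | h
        · exact ih1 i h
        · rw [h]; exact hdef
      refine ⟨hdef', h2 _ hdef', ?_⟩
      rw [Function.iterate_succ_apply']
      exact (H_spec hr hd ih3 hdef).1
  have hT : ∀ i, ∃ c k : ℕ, (T d m r)^[i] n = (d : ℤ) ^ c * (H d m r)^[k] n := by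
    intro i
    induction i with
    | zero => exact ⟨0, 0, by simp⟩
    | succ i ih =>
      obtain ⟨c, k, hck⟩ := ih
      rw [Function.iterate_succ_apply', hck]
      obtain ⟨_, _, p3⟩ := hP k
      rcases Nat.eq_zero_or_pos c with hc | hc
      · subst hc
        rw [pow_zero, one_mul]
        have hdef := (hP (k + 1)).1 k (Nat.lt_succ_self k)
        obtain ⟨c', hc'⟩ := (H_spec hr hd p3 hdef).2
        exact ⟨c', k + 1, by rw [hc', Function.iterate_succ_apply']⟩
      · refine ⟨c - 1, k, ?_⟩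
        have hd0 : (d : ℤ) ≠ 0 := by omega
        apply mul_left_cancel₀ hd0
        rw [d_mul_T_of_dvd (Dvd.dvd.mul_right (dvd_pow_self _ (by omega)) _), ← mul_assoc,
          ← pow_succ', Nat.sub_add_cancel hc]
  obtain ⟨c, k', hck⟩ := hT k
  rw [hck]
  have h3 := (hP k').2.1
  have h4 : (1 : ℝ) ≤ (d : ℝ) ^ c := one_le_pow₀ (by exact_mod_cast (by omega : 1 ≤ d))
  push_cast
  nlinarith

end Pool.Agent.Helper52.Moeller
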