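import Pool.Agent.Helper68.Moeller.Residues

/-!
The first passage density lemma for Möller's maps: the number of `n ≤ X` whose `T`-orbit enters
`(-∞, Y]` within `N` steps at the point `y` is at most `8 B d N (N+1)^2 X / y`.
-/

set_option autoImplicit false

namespace Pool.Agent.Helper52.Moeller

open Pool.Agent.Helper68.Moeller

variable {d m : ℕ} {r : ℤ → ℤ}

/-- `cnt` is additive along orbits. -/
theorem cnt_add : ∀ (a b : ℕ) (x : ℤ),
    cnt d m r (a + b) x = cnt d m r a x + cnt d m r b ((T d m r)^[a] x)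
  | 0, b, x => by simp [cnt]
  | a + 1, b, x => by
      rw [show a + 1 + b = (a + b) + 1 by ring, cnt, cnt, cnt_add a b (T d m r x),
        Function.iterate_succ_apply]
      ring

/-- One step of `T`, in multiplicative form. -/
theorem step (hr : Admissible d m r) (hd : 2 ≤ d) (x : ℤ) :
    (d : ℤ) * T d m r x = (if (d : ℤ) ∣ x then x else (m : ℤ) * x - r (x % d)) := by
  split_ifs with h
  · exact d_mul_T_of_dvd h
  · exact d_mul_T_of_not_dvd hr hd h

/-- Congruent points have the same beginning of the orbit. -/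
theorem same_start (hr : Admissible d m r) (hd : 2 ≤ d) (hco : Nat.Coprime m d) :
    ∀ (K : ℕ) (x y : ℤ), (d : ℤ) ^ K ∣ x - y →
      cnt d m r K x = cnt d m r K y ∧
      (d : ℤ) ^ K * ((T d m r)^[K] x - (T d m r)^[K] y) = (m : ℤ) ^ cnt d m r K x * (x - y)
  | 0, x, y, _ => by simp [cnt]
  | K + 1, x, y, h => by
      have hd0 : (d : ℤ) ≠ 0 := by omega
      have hdvd : (d : ℤ) ∣ x - y := (dvd_pow_self _ (by omega)).trans h
      have hmod : x % (d : ℤ) = y % (d : ℤ) := (Int.modEq_iff_dvd.mpr hdvd).symm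
      have hiff : (d : ℤ) ∣ x ↔ (d : ℤ) ∣ y := by
        rw [Int.dvd_iff_emod_eq_zero, Int.dvd_iff_emod_eq_zero, hmod]
      have hx := step hr hd x
      have hy := step hr hd y
      have key : (d : ℤ) * (T d m r x - T d m r y) =
          (m : ℤ) ^ (if (d : ℤ) ∣ x then 0 else 1) * (x - y) := by
        by_cases hdx : (d : ℤ) ∣ x
        · have hdy := hiff.1 hdx
          rw [if_pos hdx] at hx
          rw [if_pos hdy] at hy
          rw [if_pos hdx, mul_sub, hx, hy]; ring
        · have hdy : ¬ (d : ℤ) ∣ y := fun h => hdx (hiff.2 h)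
          rw [if_neg hdx] at hx
          rw [if_neg hdy] at hy
          rw [if_neg hdx, mul_sub, hx, hy, hmod]; ring
      have h1 : (d : ℤ) ^ K ∣ T d m r x - T d m r y := by
        have h2 : (d : ℤ) * (d : ℤ) ^ K ∣ (d : ℤ) * (T d m r x - T d m r y) := by
          rw [key, ← pow_succ']
          exact Dvd.dvd.mul_left h _
        exact (mul_dvd_mul_iff_left hd0).1 h2
      obtain ⟨h2, h3⟩ := same_start hr hd hco K _ _ h1
      constructor
      · rw [cnt, cnt, h2]
        by_cases hdx : (d : ℤ) ∣ x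
        · rw [if_pos hdx, if_pos (hiff.1 hdx)]
        · rw [if_neg hdx, if_neg (fun h => hdx (hiff.2 h))]
      · rw [Function.iterate_succ_apply, Function.iterate_succ_apply, cnt, pow_add (m : ℤ)]
        calc (d : ℤ) ^ (K + 1) * ((T d m r)^[K] (T d m r x) - (T d m r)^[K] (T d m r y))
            = d * ((d : ℤ) ^ K * ((T d m r)^[K] (T d m r x) - (T d m r)^[K] (T d m r y))) := by ring
          _ = (m : ℤ) ^ cnt d m r K (T d m r x) * (d * (T d m r x - T d m r y)) := by
              rw [h3]; ring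
          _ = _ := by rw [key]; ring

/-- The error of linearity. -/
def err (d m : ℕ) (r : ℤ → ℤ) (L : ℕ) (u : ℤ) : ℤ :=
  (m : ℤ) ^ cnt d m r L u * u - (d : ℤ) ^ L * (T d m r)^[L] u

theorem err_succ (hr : Admissible d m r) (hd : 2 ≤ d) (L : ℕ) (u : ℤ) :
    err d m r (L + 1) u = d * err d m r L (T d m r u) +
      (if (d : ℤ) ∣ u then 0 else (m : ℤ) ^ cnt d m r L (T d m r u) * r (u % d)) := by
  have h := step hr hd u
  rw [err, err, Function.iterate_succ_apply, cnt]
  split_ifs at h ⊢ with hx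
  · rw [zero_add]
    linear_combination (-(m : ℤ) ^ cnt d m r L (T d m r u)) * h
  · rw [pow_add, pow_one]
    linear_combination (-(m : ℤ) ^ cnt d m r L (T d m r u)) * h

section size

variable {B : ℕ} {Y : ℝ} {N : ℕ}

/-- Two-sided control of the size along an orbit staying above `Y`. -/
theorem size_aux (hr : Admissible d m r) (hd : 2 ≤ d) (hm : 1 ≤ m)
    (hB : ∀ j : ℤ, 0 < j → j < (d : ℤ) → |r j| ≤ B) (hY : 0 < Y) (hBY : (B : ℝ) ≤ Y)
    (t : ℕ) (n : ℤ) (habove : ∀ i < t, Y < ((T d m r)^[i] n : ℝ)) :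
    (1 - B / Y) ^ t * ((m : ℝ) ^ cnt d m r t n * n) ≤ (d : ℝ) ^ t * ((T d m r)^[t] n : ℝ) ∧
    (d : ℝ) ^ t * ((T d m r)^[t] n : ℝ) ≤ (1 + B / Y) ^ t * ((m : ℝ) ^ cnt d m r t n * n) := by
  have hq0 : 0 ≤ (B : ℝ) / Y := by positivity
  have hq1 : (B : ℝ) / Y ≤ 1 := by rwa [div_le_one hY]
  induction t with
  | zero => simp [cnt]
  | succ t ih =>
    obtain ⟨h1, h2⟩ := ih (fun i hi => habove i (by omega))
    have ha := habove t (by omega)
    set a := (T d m r)^[t] n with ha'
    have hstep := step hr hd a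
    have hcnt : cnt d m r (t + 1) n = cnt d m r t n + (if (d : ℤ) ∣ a then 0 else 1) := by
      rw [cnt_add t 1 n, cnt, cnt, ← ha', add_zero]
    rw [Function.iterate_succ_apply', ← ha', hcnt]
    have hn0 : 0 ≤ (m : ℝ) ^ cnt d m r t n * n := by
      have h3 : 0 < (1 + B / Y) ^ t := by positivity
      have h4 : 0 < (d : ℝ) ^ t * (a : ℝ) := by
        have : (0 : ℝ) < d := by positivity
        have : (0 : ℝ) < a := hY.trans ha
        positivity
      have h5 := h4.trans_le h2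
      exact (pos_of_mul_pos_right h5 h3.le).le
    set W := (m : ℝ) ^ cnt d m r t n * n with hW
    have hm1 : (1 : ℝ) ≤ m := by exact_mod_cast hm
    have hdt : (0 : ℝ) < (d : ℝ) ^ t := by positivity
    have ha0 : (0 : ℝ) < a := hY.trans ha
    -- real version of the step
    have hkey : (1 - B / Y) * ((m : ℝ) ^ (if (d : ℤ) ∣ a then 0 else 1) * a) ≤
        (d : ℝ) * (T d m r a : ℝ) ∧ (d : ℝ) * (T d m r a : ℝ) ≤
        (1 + B / Y) * ((m : ℝ) ^ (if (d : ℤ) ∣ a then 0 else 1) * a) := by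
      by_cases hda : (d : ℤ) ∣ a
      · rw [if_pos hda] at hstep
        have hs : (d : ℝ) * (T d m r a : ℝ) = a := by exact_mod_cast hstep
        rw [hs, if_pos hda, pow_zero, one_mul]
        constructor <;> nlinarith
      · rw [if_neg hda] at hstep
        have hs : (d : ℝ) * (T d m r a : ℝ) = m * a - (r (a % d) : ℝ) := by exact_mod_cast hstep
        rw [hs, if_neg hda, pow_one]
        obtain ⟨e1, e2⟩ := emod_pos hd hda
        have h6 : |(r (a % d) : ℝ)| ≤ B := by exact_mod_cast hB _ e1 e2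
        have h7 : (B : ℝ) ≤ B / Y * (m * a) := by
          rw [div_mul_eq_mul_div, le_div_iff₀ hY]
          have : (Y : ℝ) ≤ m * a := by nlinarith
          exact mul_le_mul_of_nonneg_left this (by positivity)
        rw [abs_le] at h6
        constructor <;> nlinarith
    set c := (if (d : ℤ) ∣ a then 0 else 1) with hc
    have hmc : (0 : ℝ) < (m : ℝ) ^ c := by positivity
    constructor
    · calc (1 - B / Y) ^ (t + 1) * ((m : ℝ) ^ (cnt d m r t n + c) * n)
          = (1 - B / Y) * (m : ℝ) ^ c * ((1 - B / Y) ^ t * W) := by rw [hW]; ring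
        _ ≤ (1 - B / Y) * (m : ℝ) ^ c * ((d : ℝ) ^ t * a) := by
            refine mul_le_mul_of_nonneg_left h1 ?_
            have : 0 ≤ 1 - (B : ℝ) / Y := by linarith
            positivity
        _ = (d : ℝ) ^ t * ((1 - B / Y) * ((m : ℝ) ^ c * a)) := by ring
        _ ≤ (d : ℝ) ^ t * ((d : ℝ) * (T d m r a : ℝ)) := mul_le_mul_of_nonneg_left hkey.1 hdt.le
        _ = _ := by ring
    · calc (d : ℝ) ^ (t + 1) * (T d m r a : ℝ) = (d : ℝ) ^ t * ((d : ℝ) * (T d m r a : ℝ)) := by ring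
        _ ≤ (d : ℝ) ^ t * ((1 + B / Y) * ((m : ℝ) ^ c * a)) :=
            mul_le_mul_of_nonneg_left hkey.2 hdt.le
        _ = (1 + B / Y) * (m : ℝ) ^ c * ((d : ℝ) ^ t * a) := by ring
        _ ≤ (1 + B / Y) * (m : ℝ) ^ c * ((1 + B / Y) ^ t * W) :=
            mul_le_mul_of_nonneg_left h2 (by positivity)
        _ = _ := by rw [hW]; ring

/-- Size control with constants `1/2` and `2`. -/
theorem size (hr : Admissible d m r) (hd : 2 ≤ d) (hm : 1 ≤ m)
    (hB : ∀ j : ℤ, 0 < j → j < (d : ℤ) → |r j| ≤ B) (hB1 : 1 ≤ B) (hN : 1 ≤ N)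
    (hY : 2 * (B : ℝ) * N ≤ Y) (t : ℕ) (ht : t ≤ N) (n : ℤ) (hn : 0 < n)
    (habove : ∀ i < t, Y < ((T d m r)^[i] n : ℝ)) :
    (m : ℝ) ^ cnt d m r t n * n ≤ 2 * ((d : ℝ) ^ t * ((T d m r)^[t] n : ℝ)) ∧
    (d : ℝ) ^ t * ((T d m r)^[t] n : ℝ) ≤ 2 * ((m : ℝ) ^ cnt d m r t n * n) := by
  have hB1' : (1 : ℝ) ≤ B := by exact_mod_cast hB1
  have hN1 : (1 : ℝ) ≤ N := by exact_mod_cast hN
  have hY0 : 0 < Y := lt_of_lt_of_le (by positivity) hY
  have hBY : (B : ℝ) ≤ Y := by nlinarith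
  obtain ⟨h1, h2⟩ := size_aux hr hd hm hB hY0 hBY t n habove
  have hW : 0 ≤ (m : ℝ) ^ cnt d m r t n * n := by
    have : (0 : ℝ) < n := by exact_mod_cast hn
    positivity
  have hq : (B : ℝ) / Y ≤ 1 / (2 * N) := by
    rw [div_le_div_iff₀ hY0 (by positivity)]
    linarith
  have hq0 : 0 ≤ (B : ℝ) / Y := by positivity
  have htN : (t : ℝ) ≤ N := by exact_mod_cast ht
  have h3 : (1 : ℝ) / 2 ≤ (1 - B / Y) ^ t := by
    have hb := one_add_mul_le_pow (show (-2 : ℝ) ≤ -((B : ℝ) / Y) by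
      have : 1 / (2 * (N : ℝ)) ≤ 1 := by
        rw [div_le_one (by positivity)]; linarith
      linarith) t
    have h4 : (t : ℝ) * ((B : ℝ) / Y) ≤ 1 / 2 := by
      calc (t : ℝ) * ((B : ℝ) / Y) ≤ N * (1 / (2 * N)) :=
            mul_le_mul htN hq hq0 (by positivity)
        _ = 1 / 2 := by field_simp
    calc (1 : ℝ) / 2 ≤ 1 + (t : ℝ) * -((B : ℝ) / Y) := by linarith
      _ ≤ (1 + -((B : ℝ) / Y)) ^ t := hb
      _ = (1 - B / Y) ^ t := by rw [← sub_eq_add_neg]
  have h5 : (1 + B / Y) ^ t ≤ 2 := by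
    have h6 : (1 + (B : ℝ) / Y) ≤ Real.exp ((B : ℝ) / Y) := by
      rw [add_comm]; exact Real.add_one_le_exp _
    calc (1 + (B : ℝ) / Y) ^ t ≤ (Real.exp ((B : ℝ) / Y)) ^ t :=
          pow_le_pow_left₀ (by positivity) h6 t
      _ = Real.exp (t * ((B : ℝ) / Y)) := by rw [← Real.exp_nat_mul]
      _ ≤ Real.exp (1 / 2) := by
          apply Real.exp_le_exp.2
          calc (t : ℝ) * ((B : ℝ) / Y) ≤ N * (1 / (2 * N)) :=
                mul_le_mul htN hq hq0 (by positivity)
            _ = 1 / 2 := by field_simp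
      _ ≤ 2 := by
          have h7 : Real.exp (1 / 2) ^ 2 ≤ 2 ^ 2 := by
            rw [← Real.exp_nat_mul]
            norm_num
            have := Real.exp_one_lt_d9
            linarith
          exact le_of_sq_le_sq h7 (by norm_num)
  constructor
  · have h6 : (1 / 2) * ((m : ℝ) ^ cnt d m r t n * n) ≤
        (1 - B / Y) ^ t * ((m : ℝ) ^ cnt d m r t n * n) := mul_le_mul_of_nonneg_right h3 hW
    linarith
  · exact h2.trans (mul_le_mul_of_nonneg_right h5 hW)

/-- First passage: the slopes are bounded. -/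
theorem slope_le (hr : Admissible d m r) (hd : 2 ≤ d) (hm : 1 ≤ m)
    (hB : ∀ j : ℤ, 0 < j → j < (d : ℤ) → |r j| ≤ B) (hB1 : 1 ≤ B) (hN : 1 ≤ N)
    (hY : 2 * (B : ℝ) * N ≤ Y) {y : ℤ} (hy : (y : ℝ) ≤ Y) (L : ℕ) (hL : L ≤ N) (u : ℤ)
    (hu : 0 < u) (huy : (T d m r)^[L] u = y) (habove : ∀ i < L, Y < ((T d m r)^[i] u : ℝ)) :
    (m : ℝ) ^ cnt d m r L u ≤ 2 * (d : ℝ) ^ L := by
  rcases Nat.eq_zero_or_pos L with h0 | h0
  · subst h0; simp [cnt]
  · obtain ⟨h1, _⟩ := size hr hd hm hB hB1 hN hY L hL u hu habove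
    rw [huy] at h1
    have hu0 : (0 : ℝ) < u := by exact_mod_cast hu
    have huY := habove 0 h0
    simp only [Function.iterate_zero, id_eq] at huY
    have h2 : (d : ℝ) ^ L * (y : ℝ) ≤ (d : ℝ) ^ L * u :=
      mul_le_mul_of_nonneg_left (hy.trans huY.le) (by positivity)
    have h3 : (m : ℝ) ^ cnt d m r L u * u ≤ (2 * (d : ℝ) ^ L) * u := by linarith
    exact le_of_mul_le_mul_right h3 hu0

/-- First passage: the error of linearity is small. -/
theorem err_le (hr : Admissible d m r) (hd : 2 ≤ d) (hm : 1 ≤ m)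
    (hB : ∀ j : ℤ, 0 < j → j < (d : ℤ) → |r j| ≤ B) (hB1 : 1 ≤ B) (hN : 1 ≤ N)
    (hY : 2 * (B : ℝ) * N ≤ Y) {y : ℤ} (hy0 : 0 < y) (hy : (y : ℝ) ≤ Y) (L : ℕ) (hL : L ≤ N)
    (u : ℤ) (huy : (T d m r)^[L] u = y) (habove : ∀ i < L, Y < ((T d m r)^[i] u : ℝ)) :
    (d : ℝ) * |(err d m r L u : ℝ)| ≤ 2 * B * L * (d : ℝ) ^ L := by
  have hY0 : 0 < Y := by
    have h1 : (1 : ℝ) ≤ B := by exact_mod_cast hB1
    have h2 : (1 : ℝ) ≤ N := by exact_mod_cast hN
    exact lt_of_lt_of_le (by positivity) hY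
  induction L generalizing u with
  | zero => simp [err, cnt]
  | succ L ih =>
    have ha : ∀ i < L, Y < ((T d m r)^[i] (T d m r u) : ℝ) := by
      intro i hi
      have := habove (i + 1) (by omega)
      rwa [Function.iterate_succ_apply] at this
    rw [Function.iterate_succ_apply] at huy
    have h1 := ih (by omega) (T d m r u) huy ha
    have hpos : 0 < T d m r u := by
      rcases Nat.eq_zero_or_pos L with h0 | h0
      · subst h0
        simp only [Function.iterate_zero, id_eq] at huy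
        rw [huy]; exact hy0
      · have := ha 0 h0
        simp only [Function.iterate_zero, id_eq] at this
        exact_mod_cast hY0.trans this
    have h2 := slope_le hr hd hm hB hB1 hN hY hy L (by omega) _ hpos huy ha
    have h3 : |(if (d : ℤ) ∣ u then (0 : ℝ) else
        (m : ℝ) ^ cnt d m r L (T d m r u) * (r (u % d) : ℝ))| ≤ 2 * B * (d : ℝ) ^ L := by
      split_ifs with hdu
      · rw [abs_zero]; positivity
      · obtain ⟨e1, e2⟩ := emod_pos hd hdu
        have h6 : |(r (u % d) : ℝ)| ≤ B := by exact_mod_cast hB _ e1 e2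
        rw [abs_mul, abs_of_nonneg (by positivity)]
        calc (m : ℝ) ^ cnt d m r L (T d m r u) * |(r (u % d) : ℝ)|
            ≤ (2 * (d : ℝ) ^ L) * B := mul_le_mul h2 h6 (abs_nonneg _) (by positivity)
          _ = _ := by ring
    have h4 : (err d m r (L + 1) u : ℝ) = d * (err d m r L (T d m r u) : ℝ) +
        (if (d : ℤ) ∣ u then (0 : ℝ) else
          (m : ℝ) ^ cnt d m r L (T d m r u) * (r (u % d) : ℝ)) := by
      rw [err_succ hr hd]; push_cast; split_ifs <;> rfl
    have hd0 : (0 : ℝ) < d := by positivity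
    rw [h4]
    have h5 := abs_add_le (d * (err d m r L (T d m r u) : ℝ))
      (if (d : ℤ) ∣ u then (0 : ℝ) else (m : ℝ) ^ cnt d m r L (T d m r u) * (r (u % d) : ℝ))
    rw [abs_mul, abs_of_pos hd0] at h5
    push_cast
    calc (d : ℝ) * |_| ≤ d * (d * |(err d m r L (T d m r u) : ℝ)| + 2 * B * (d : ℝ) ^ L) :=
          mul_le_mul_of_nonneg_left (by linarith) hd0.le
      _ ≤ d * (2 * B * L * (d : ℝ) ^ L + 2 * B * (d : ℝ) ^ L) :=
          mul_le_mul_of_nonneg_left (by linarith) hd0.le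
      _ = 2 * B * (L + 1) * (d : ℝ) ^ (L + 1) := by ring

/-- **Injectivity**: points with the same first passage point, passage time and number of
nonzero residues are separated modulo a small power of `d`. -/
theorem inj (hr : Admissible d m r) (hd : 2 ≤ d) (hm : 1 ≤ m) (hco : Nat.Coprime m d)
    (hB : ∀ j : ℤ, 0 < j → j < (d : ℤ) → |r j| ≤ B) (hB1 : 1 ≤ B) (hN : 1 ≤ N)
    (hY : 2 * (B : ℝ) * N ≤ Y) {y : ℤ} (hy0 : 0 < y) (hy : (y : ℝ) ≤ Y) (K L s : ℕ)
    (hL : K + L ≤ N) (hs : 4 * (B : ℝ) * L * (d : ℝ) ^ L < d * (m : ℝ) ^ s) (n n' : ℤ)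
    (hn : (T d m r)^[K + L] n = y) (hn' : (T d m r)^[K + L] n' = y)
    (hns : cnt d m r (K + L) n = s) (hns' : cnt d m r (K + L) n' = s)
    (habove : ∀ i < K + L, Y < ((T d m r)^[i] n : ℝ))
    (habove' : ∀ i < K + L, Y < ((T d m r)^[i] n' : ℝ)) (hdvd : (d : ℤ) ^ K ∣ n - n') :
    n = n' := by
  obtain ⟨h1, h2⟩ := same_start hr hd hco K n n' hdvd
  set u := (T d m r)^[K] n with hu
  set u' := (T d m r)^[K] n' with hu'
  have huy : (T d m r)^[L] u = y := by
    rw [hu, ← Function.iterate_add_apply, add_comm L K]; exact hn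
  have huy' : (T d m r)^[L] u' = y := by
    rw [hu', ← Function.iterate_add_apply, add_comm L K]; exact hn'
  have ha : ∀ i < L, Y < ((T d m r)^[i] u : ℝ) := by
    intro i hi
    have := habove (i + K) (by omega)
    rwa [Function.iterate_add_apply] at this
  have ha' : ∀ i < L, Y < ((T d m r)^[i] u' : ℝ) := by
    intro i hi
    have := habove' (i + K) (by omega)
    rwa [Function.iterate_add_apply] at this
  have e1 := err_le hr hd hm hB hB1 hN hY hy0 hy L (by omega) u huy ha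
  have e2 := err_le hr hd hm hB hB1 hN hY hy0 hy L (by omega) u' huy' ha'
  rw [cnt_add] at hns hns'
  rw [← hu] at hns
  rw [← hu'] at hns'
  have hcc : cnt d m r L u = cnt d m r L u' := by omega
  have h3 : (m : ℤ) ^ cnt d m r L u * (u - u') = err d m r L u - err d m r L u' := by
    rw [err, err, huy, huy', hcc]; ring
  have h4 : (m : ℤ) ^ s * (n - n') = (d : ℤ) ^ K * (err d m r L u - err d m r L u') := by
    rw [← h3, ← hns, pow_add]
    linear_combination (-(m : ℤ) ^ cnt d m r L u) * h2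
  have h5 : (m : ℤ) ^ s ∣ err d m r L u - err d m r L u' := by
    have h6 : (m : ℤ) ^ s ∣ (d : ℤ) ^ K * (err d m r L u - err d m r L u') := ⟨_, h4.symm⟩
    have h7 : IsCoprime ((m : ℤ) ^ s) ((d : ℤ) ^ K) :=
      IsCoprime.pow (Nat.isCoprime_iff_coprime.mpr hco)
    exact h7.dvd_of_dvd_mul_left h6
  have h6 : |(err d m r L u - err d m r L u' : ℤ)| < (m : ℤ) ^ s := by
    have hd0 : (0 : ℝ) < d := by positivity
    have h7 : (d : ℝ) * |((err d m r L u : ℝ) - (err d m r L u' : ℝ))| < d * (m : ℝ) ^ s := by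
      have h8 := abs_sub (err d m r L u : ℝ) (err d m r L u' : ℝ)
      have h9 := mul_le_mul_of_nonneg_left h8 hd0.le
      rw [mul_add] at h9
      linarith
    have h8 := lt_of_mul_lt_mul_left h7 hd0.le
    exact_mod_cast h8
  have h7 : err d m r L u - err d m r L u' = 0 := Int.eq_zero_of_abs_lt_dvd h5 h6
  rw [h7, mul_zero] at h4
  have hms : (m : ℤ) ^ s ≠ 0 := pow_ne_zero _ (by omega)
  rcases mul_eq_zero.1 h4 with h | h
  · exact absurd h hms
  · omega

end size

end Pool.Agent.Helper52.Moeller
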