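import Pool.Agent.Helper52.Moeller.Passage

/-!
Counting first passages, and the points which do not go down quickly.
-/

set_option autoImplicit false

namespace Pool.Agent.Helper52.Moeller

open Pool.Agent.Helper68.Moeller

variable {d m : ℕ} {r : ℤ → ℤ}

theorem cnt_le : ∀ (K : ℕ) (x : ℤ), cnt d m r K x ≤ K
  | 0, x => by simp [cnt]
  | K + 1, x => by
      have := cnt_le K (T d m r x)
      rw [cnt]
      split_ifs <;> omega

section

variable {B : ℕ} {Y : ℝ} {N : ℕ}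

/-- The number of points with given first passage point, time and number of nonzero residues. -/
theorem card_A (hr : Admissible d m r) (hd : 2 ≤ d) (hm : 1 ≤ m) (hco : Nat.Coprime m d)
    (hB : ∀ j : ℤ, 0 < j → j < (d : ℤ) → |r j| ≤ B) (hB1 : 1 ≤ B) (hN : 1 ≤ N)
    (hY : 2 * (B : ℝ) * N ≤ Y) {y : ℤ} (hy0 : 0 < y) (hy : (y : ℝ) ≤ Y) {X : ℝ} (hX : 0 ≤ X)
    (t s : ℕ) (ht : t ≤ N) (A : Finset ℤ)
    (hA : ∀ n ∈ A, 0 < n ∧ (n : ℝ) ≤ X ∧ (T d m r)^[t] n = y ∧ cnt d m r t n = s ∧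
      ∀ i < t, Y < ((T d m r)^[i] n : ℝ)) :
    (A.card : ℝ) * y ≤ 8 * B * N * d * X := by
  have hB1' : (1 : ℝ) ≤ B := by exact_mod_cast hB1
  have hN1' : (1 : ℝ) ≤ N := by exact_mod_cast hN
  have hd0 : (0 : ℝ) < d := by positivity
  have hd1 : (1 : ℝ) < d := by exact_mod_cast (by omega : 1 < d)
  rcases A.eq_empty_or_nonempty with h0 | ⟨n₀, hn₀⟩
  · subst h0
    simp only [Finset.card_empty, Nat.cast_zero, zero_mul]; positivity
  obtain ⟨hn0, hnX, hny, hns, hnY⟩ := hA n₀ hn₀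
  have hn0' : (0 : ℝ) < n₀ := by exact_mod_cast hn0
  have hX0 : 0 < X := hn0'.trans_le hnX
  obtain ⟨hs1, hs2⟩ := size hr hd hm hB hB1 hN hY t ht n₀ hn0 hnY
  rw [hny, hns] at hs1 hs2
  have hslope : (m : ℝ) ^ s ≤ 2 * (d : ℝ) ^ t := by
    have := slope_le hr hd hm hB hB1 hN hY hy t ht n₀ hn0 hny hnY
    rwa [hns] at this
  have hup : (d : ℝ) ^ t * y ≤ 2 * ((m : ℝ) ^ s * X) := by
    refine hs2.trans ?_
    have : (m : ℝ) ^ s * n₀ ≤ (m : ℝ) ^ s * X := mul_le_mul_of_nonneg_left hnX (by positivity)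
    linarith
  -- choice of `L`
  have hBN : 0 < 4 * B * N := by positivity
  set q := m ^ s / (4 * B * N) with hq
  set L := Nat.log d q with hL
  have hq1 : m ^ s < 4 * B * N * (q + 1) := by
    rw [hq]; exact Nat.lt_mul_div_succ _ hBN
  have hq2 : 4 * B * N * q ≤ m ^ s := Nat.mul_div_le _ _
  have hq3 : q < d ^ (L + 1) := Nat.lt_pow_succ_log_self (by omega) q
  have hms : (m : ℝ) ^ s ≤ 4 * B * N * (d : ℝ) ^ (L + 1) := by
    have : m ^ s ≤ 4 * B * N * d ^ (L + 1) := by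
      calc m ^ s ≤ 4 * B * N * (q + 1) := hq1.le
        _ ≤ 4 * B * N * d ^ (L + 1) := Nat.mul_le_mul_left _ hq3
    exact_mod_cast this
  have hLq : L ≠ 0 → 4 * (B : ℝ) * N * (d : ℝ) ^ L ≤ (m : ℝ) ^ s := by
    intro hL0
    have hq0 : q ≠ 0 := by
      intro h; rw [hL, h, Nat.log_zero_right] at hL0; exact hL0 rfl
    have h1 : d ^ L ≤ q := Nat.pow_log_le_self d hq0
    have : 4 * B * N * d ^ L ≤ m ^ s := (Nat.mul_le_mul_left _ h1).trans hq2
    exact_mod_cast this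
  have hLt : L ≤ t := by
    by_cases hL0 : L = 0
    · omega
    · have h1 := (hLq hL0).trans hslope
      have h2 : (d : ℝ) ^ L ≤ (d : ℝ) ^ t := by
        have h3 : (2 : ℝ) * (d : ℝ) ^ L ≤ 4 * B * N * (d : ℝ) ^ L := by
          apply mul_le_mul_of_nonneg_right _ (by positivity)
          nlinarith
        linarith
      exact (pow_le_pow_iff_right₀ hd1).1 h2
  have hcond : 4 * (B : ℝ) * L * (d : ℝ) ^ L < d * (m : ℝ) ^ s := by
    have hms0 : (0 : ℝ) < (m : ℝ) ^ s := by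
      have : (0 : ℝ) < m := by exact_mod_cast hm
      positivity
    by_cases hL0 : L = 0
    · rw [hL0]; simp only [Nat.cast_zero, mul_zero, zero_mul]; positivity
    · have h1 := hLq hL0
      have hLN : (L : ℝ) ≤ N := by exact_mod_cast hLt.trans ht
      calc 4 * (B : ℝ) * L * (d : ℝ) ^ L ≤ 4 * B * N * (d : ℝ) ^ L := by gcongr
        _ ≤ (m : ℝ) ^ s := h1
        _ < d * (m : ℝ) ^ s := by nlinarith
  have hcard : (A.card : ℝ) ≤ (d : ℝ) ^ (t - L) := by
    apply card_le hd hco hr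
    intro n hn n' hn' hdvd
    obtain ⟨_, _, a3, a4, a5⟩ := hA n hn
    obtain ⟨_, _, b3, b4, b5⟩ := hA n' hn'
    have htL : t - L + L = t := Nat.sub_add_cancel hLt
    refine inj hr hd hm hco hB hB1 hN hY hy0 hy (t - L) L s (by omega) hcond n n' ?_ ?_ ?_ ?_
      ?_ ?_ hdvd
    all_goals rw [htL]; assumption
  have hy0' : (0 : ℝ) < y := by exact_mod_cast hy0
  have hdL : (0 : ℝ) < (d : ℝ) ^ L := by positivity
  have h1 : (A.card : ℝ) * y * (d : ℝ) ^ L ≤ 8 * B * N * d * X * (d : ℝ) ^ L := by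
    calc (A.card : ℝ) * y * (d : ℝ) ^ L ≤ (d : ℝ) ^ (t - L) * y * (d : ℝ) ^ L := by gcongr
      _ = (d : ℝ) ^ t * y := by
          nth_rewrite 2 [← Nat.sub_add_cancel hLt]
          rw [pow_add]; ring
      _ ≤ 2 * ((m : ℝ) ^ s * X) := hup
      _ ≤ 2 * ((4 * B * N * (d : ℝ) ^ (L + 1)) * X) := by gcongr
      _ = _ := by ring
  exact le_of_mul_le_mul_right h1 hdL

/-- **First passage density.** At most `8 B N (N+1)^2 d X / y` positive `n ≤ X` have their first
passage below `Y` at the point `y`, within `N` steps. -/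
theorem card_passage (hr : Admissible d m r) (hd : 2 ≤ d) (hm : 1 ≤ m) (hco : Nat.Coprime m d)
    (hB : ∀ j : ℤ, 0 < j → j < (d : ℤ) → |r j| ≤ B) (hB1 : 1 ≤ B) (hN : 1 ≤ N)
    (hY : 2 * (B : ℝ) * N ≤ Y) {y : ℤ} (hy0 : 0 < y) (hy : (y : ℝ) ≤ Y) {X : ℝ} (hX : 0 ≤ X)
    (A : Finset ℤ)
    (hA : ∀ n ∈ A, 0 < n ∧ (n : ℝ) ≤ X ∧ ∃ t ≤ N, (T d m r)^[t] n = y ∧
      ∀ i < t, Y < ((T d m r)^[i] n : ℝ)) :
    (A.card : ℝ) * y ≤ 8 * B * N * ((N : ℝ) + 1) ^ 2 * d * X := by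
  classical
  have hy0' : (0 : ℝ) < y := by exact_mod_cast hy0
  choose! t ht1 ht2 ht3 using fun n (hn : n ∈ A) => (hA n hn).2.2
  set f : ℤ → ℕ × ℕ := fun n => (t n, cnt d m r (t n) n) with hf
  have hmaps : ∀ n ∈ A, f n ∈ Finset.range (N + 1) ×ˢ Finset.range (N + 1) := by
    intro n hn
    rw [Finset.mem_product, Finset.mem_range, Finset.mem_range]
    have h1 := ht1 n hn
    have h2 := cnt_le (d := d) (m := m) (r := r) (t n) n
    simp only [hf]
    omega
  have h1 : A.card = ∑ p ∈ Finset.range (N + 1) ×ˢ Finset.range (N + 1),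
      (A.filter (fun n => f n = p)).card := Finset.card_eq_sum_card_fiberwise hmaps
  have h2 : ∀ p ∈ Finset.range (N + 1) ×ˢ Finset.range (N + 1),
      ((A.filter (fun n => f n = p)).card : ℝ) * y ≤ 8 * B * N * d * X := by
    intro p hp
    rw [Finset.mem_product, Finset.mem_range, Finset.mem_range] at hp
    refine card_A hr hd hm hco hB hB1 hN hY hy0 hy hX p.1 p.2 (by omega) _ ?_
    intro n hn
    rw [Finset.mem_filter] at hn
    obtain ⟨hn1, hn2⟩ := hn
    have e1 : t n = p.1 := by rw [← hn2]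
    have e2 : cnt d m r (t n) n = p.2 := by rw [← hn2]
    refine ⟨(hA n hn1).1, (hA n hn1).2.1, ?_, ?_, ?_⟩
    · rw [← e1]; exact ht2 n hn1
    · rw [← e1]; exact e2
    · rw [← e1]; exact ht3 n hn1
  have h3 : (A.card : ℝ) * y = ∑ p ∈ Finset.range (N + 1) ×ˢ Finset.range (N + 1),
      ((A.filter (fun n => f n = p)).card : ℝ) * y := by
    rw [h1]; push_cast; rw [Finset.sum_mul]
  rw [h3]
  refine (Finset.sum_le_card_nsmul _ _ _ h2).trans (le_of_eq ?_)
  rw [Finset.card_product, Finset.card_range, nsmul_eq_mul]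
  push_cast
  ring

/-- Choice of the parameters of the large deviation estimate. -/
theorem exists_params (hd : 2 ≤ d) (hdm : d < m) (hco : Nat.Coprime m d)
    (hm : (m : ℝ) ≤ (d : ℝ) ^ ((d : ℝ) / ((d : ℝ) - 1))) {η : ℝ} (hη : eta d m < η) :
    ∃ γ lam : ℝ, 0 < γ ∧ γ < 1 ∧ 1 ≤ lam ∧
      1 + ((d : ℝ) - 1) * lam ≤ (d : ℝ) ^ η * lam ^ (γ * (Real.log d / Real.log m)) := by
  have h1 := log_d_pos hd
  have h2 := log_m_gt hd hdm
  have hlm : 0 < Real.log m := h1.trans h2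
  obtain ⟨h3, h4⟩ := p_bounds hd hdm hco hm
  have hd' : (2 : ℝ) ≤ d := by exact_mod_cast hd
  have hd0 : (0 : ℝ) < d := by linarith
  set p := Real.log d / Real.log m with hp
  have hp0 : 0 < p := div_pos h1 hlm
  set z := p / ((1 - p) * ((d : ℝ) - 1)) with hz
  have hd1 : (0 : ℝ) < (d : ℝ) - 1 := by linarith
  have hz1 : 1 ≤ z := by
    rw [hz, one_le_div (mul_pos (by linarith) hd1)]
    have : (1 - 1 / (d : ℝ)) * d < p * d := mul_lt_mul_of_pos_right h3 (by linarith)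
    have e : (1 - 1 / (d : ℝ)) * d = d - 1 := by field_simp
    nlinarith
  have hz0 : 0 < z := by linarith
  have hlz : 0 ≤ Real.log z := Real.log_nonneg hz1
  have hid := chernoff_id hd hp0 h4
  rw [← hz] at hid
  -- `d ^ eta = exp (entropy)`
  have hde : (d : ℝ) ^ eta d m = Real.exp (Real.qaryEntropy d p) := by
    rw [Real.rpow_def_of_pos hd0, eta, ← hp]
    congr 1
    field_simp
  have hA : 1 + ((d : ℝ) - 1) * z = (d : ℝ) ^ eta d m * z ^ p := by
    rw [hde, ← hid, mul_assoc, ← Real.rpow_add hz0]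
    simp
  -- choose `γ = 1 - δ`
  set δ : ℝ := min (1 / 2) ((η - eta d m) * Real.log d / (p * Real.log z + 1)) with hδ
  have hpz : 0 ≤ p * Real.log z := by positivity
  have hδ0 : 0 < δ := by
    rw [hδ]
    refine lt_min (by norm_num) (div_pos (mul_pos (by linarith) h1) (by linarith))
  have hδ1 : δ ≤ 1 / 2 := min_le_left _ _
  have hδ2 : δ * (p * Real.log z) ≤ (η - eta d m) * Real.log d := by
    have h5 : δ ≤ _ := min_le_right _ _
    have h6 : δ * (p * Real.log z + 1) ≤ (η - eta d m) * Real.log d := by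
      rwa [le_div_iff₀ (by linarith)] at h5
    linarith
  refine ⟨1 - δ, z, by linarith, by linarith, hz1, ?_⟩
  rw [hA]
  rw [← Real.log_le_log_iff (by positivity) (by positivity),
    Real.log_mul (by positivity) (by positivity), Real.log_mul (by positivity) (by positivity),
    Real.log_rpow hd0, Real.log_rpow hz0, Real.log_rpow hd0, Real.log_rpow hz0]
  linarith

/-- **Points which do not go down quickly.** -/
theorem card_stay (hd : 2 ≤ d) (hdm : d < m) (hco : Nat.Coprime m d)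
    (hm : (m : ℝ) ≤ (d : ℝ) ^ ((d : ℝ) / ((d : ℝ) - 1))) {η : ℝ} (hη : eta d m < η) :
    ∃ γ C : ℝ, 0 < γ ∧ γ < 1 ∧ 0 < C ∧ ∀ r : ℤ → ℤ, Admissible d m r → ∀ B : ℕ, 1 ≤ B →
      (∀ j : ℤ, 0 < j → j < (d : ℤ) → |r j| ≤ B) → ∀ K : ℕ, 1 ≤ K → ∀ Y₁ Y₂ : ℝ,
        1 ≤ Y₁ → Y₁ ≤ (d : ℝ) ^ K → (d : ℝ) ^ K ≤ d * Y₁ → Y₁ ^ γ ≤ Y₂ →
        2 * (B : ℝ) * K ≤ Y₂ → ∀ F : Finset ℤ,
          (∀ y ∈ F, 0 < y ∧ (y : ℝ) ≤ Y₁ ∧ ∀ i ≤ K, Y₂ < ((T d m r)^[i] y : ℝ)) →
            (F.card : ℝ) ≤ C * Y₁ ^ η := by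
  obtain ⟨γ, lam, hγ0, hγ1, hlam, hpar⟩ := exists_params hd hdm hco hm hη
  have h1 := log_d_pos hd
  have h2 := log_m_gt hd hdm
  have hlm : 0 < Real.log m := h1.trans h2
  have hd' : (2 : ℝ) ≤ d := by exact_mod_cast hd
  have hd0 : (0 : ℝ) < d := by linarith
  have hm1 : 1 ≤ m := by omega
  have hm0 : (0 : ℝ) < m := by exact_mod_cast hm1
  have hlam0 : 0 < lam := by linarith
  have hlog0 : 0 ≤ Real.log lam := Real.log_nonneg hlam
  set β := γ * Real.log lam / Real.log m with hβ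
  have hβ0 : 0 ≤ β := by positivity
  have hη0 : 0 < η := (eta_pos hd hdm).trans hη
  refine ⟨γ, lam ^ (Real.log 2 / Real.log m) * (d : ℝ) ^ (η + β), hγ0, hγ1, by positivity, ?_⟩
  intro r hr B hB1 hB K hK Y₁ Y₂ hY1 hY1K hY1K' hY12 hY2 F hF
  have hY10 : 0 < Y₁ := by linarith
  -- distinct modulo `d ^ K`
  have hdist : ∀ x ∈ F, ∀ y ∈ F, (d : ℤ) ^ K ∣ x - y → x = y := by
    intro x hx y hy hdvd
    have hx2 := hF x hx
    have hy2 := hF y hy
    have hxK : x ≤ (d : ℤ) ^ K := by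
      have := hx2.2.1.trans hY1K
      exact_mod_cast this
    have hyK : y ≤ (d : ℤ) ^ K := by
      have := hy2.2.1.trans hY1K
      exact_mod_cast this
    have habs : |x - y| < (d : ℤ) ^ K := by
      rw [abs_lt]
      constructor
      · linarith [hx2.1]
      · linarith [hy2.1]
    have := Int.eq_zero_of_abs_lt_dvd hdvd habs
    omega
  have hsum := sum_le hr hd hco hlam0.le K F hdist
  have hlow : ∀ y ∈ F, lam ^ (-(Real.log 2 / Real.log m)) * Y₁ ^ β ≤ lam ^ cnt d m r K y := by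
    intro y hy
    obtain ⟨hy0, hyY, hyT⟩ := hF y hy
    obtain ⟨_, hs⟩ := size hr hd hm1 hB hB1 hK hY2 K le_rfl y hy0 (fun i hi => hyT i hi.le)
    have hTK := hyT K le_rfl
    have h3 : (d : ℝ) ^ K * Y₂ ≤ 2 * ((m : ℝ) ^ cnt d m r K y * (d : ℝ) ^ K) := by
      calc (d : ℝ) ^ K * Y₂ ≤ (d : ℝ) ^ K * ((T d m r)^[K] y : ℝ) :=
            mul_le_mul_of_nonneg_left hTK.le (by positivity)
        _ ≤ 2 * ((m : ℝ) ^ cnt d m r K y * y) := hs
        _ ≤ 2 * ((m : ℝ) ^ cnt d m r K y * (d : ℝ) ^ K) := by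
            have := hyY.trans hY1K
            gcongr
    have h4 : Y₂ ≤ 2 * (m : ℝ) ^ cnt d m r K y := by
      have : (d : ℝ) ^ K * Y₂ ≤ (d : ℝ) ^ K * (2 * (m : ℝ) ^ cnt d m r K y) := by linarith
      exact le_of_mul_le_mul_left this (by positivity)
    have h5 : γ * Real.log Y₁ ≤ Real.log 2 + (cnt d m r K y : ℝ) * Real.log m := by
      have h6 := Real.log_le_log (by positivity) (hY12.trans h4)
      rwa [Real.log_rpow hY10, Real.log_mul (by norm_num) (by positivity), Real.log_pow] at h6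
    rw [← Real.log_le_log_iff (by positivity) (by positivity),
      Real.log_mul (by positivity) (by positivity), Real.log_rpow hlam0, Real.log_rpow hY10,
      Real.log_pow, hβ]
    have h6 : (γ * Real.log Y₁ - Real.log 2) / Real.log m ≤ cnt d m r K y := by
      rw [div_le_iff₀ hlm]; linarith
    have h7 := mul_le_mul_of_nonneg_right h6 hlog0
    refine le_trans (le_of_eq ?_) h7
    field_simp
    ring
  have h6 : (F.card : ℝ) * (lam ^ (-(Real.log 2 / Real.log m)) * Y₁ ^ β) ≤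
      (1 + ((d : ℝ) - 1) * lam) ^ K := by
    refine le_trans ?_ hsum
    rw [← nsmul_eq_mul]
    exact Finset.card_nsmul_le_sum _ _ _ hlow
  have h7 : (1 + ((d : ℝ) - 1) * lam) ^ K ≤ (d * Y₁) ^ (η + β) := by
    calc (1 + ((d : ℝ) - 1) * lam) ^ K
        ≤ ((d : ℝ) ^ η * lam ^ (γ * (Real.log d / Real.log m))) ^ K := by
          refine pow_le_pow_left₀ ?_ hpar K
          have : 0 ≤ ((d : ℝ) - 1) * lam := mul_nonneg (by linarith) hlam0.le
          linarith
      _ = ((d : ℝ) ^ K) ^ (η + β) := by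
          rw [← Real.exp_log (show 0 < ((d : ℝ) ^ η *
            lam ^ (γ * (Real.log d / Real.log m))) ^ K by positivity),
            ← Real.exp_log (show 0 < ((d : ℝ) ^ K) ^ (η + β) by positivity), Real.log_pow,
            Real.log_mul (by positivity) (by positivity), Real.log_rpow hd0, Real.log_rpow hlam0,
            Real.log_rpow (by positivity), Real.log_pow, hβ]
          congr 1
          field_simp
      _ ≤ (d * Y₁) ^ (η + β) := by
          exact Real.rpow_le_rpow (by positivity) hY1K' (by positivity)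
  have h8 : (F.card : ℝ) * (lam ^ (-(Real.log 2 / Real.log m)) * Y₁ ^ β) ≤
      (lam ^ (Real.log 2 / Real.log m) * (d : ℝ) ^ (η + β) * Y₁ ^ η) *
        (lam ^ (-(Real.log 2 / Real.log m)) * Y₁ ^ β) := by
    refine (h6.trans h7).trans (le_of_eq ?_)
    rw [Real.mul_rpow hd0.le hY10.le, Real.rpow_add hY10, Real.rpow_neg hlam0.le]
    field_simp
  exact le_of_mul_le_mul_right h8 (by positivity)

end

end Pool.Agent.Helper52.Moeller
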